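import Pool.Agent.Y748.SR.Stm7

/-!
Job SR4-GR/GPD: the set functions of the grids.
-/

open Finset Filter Topology MeasureTheory

set_option autoImplicit false

namespace Pool.Agent.Y77.SR

open Pool.Agent.Y748.SR

/-- the value of the grid on an increasing tuple -/
noncomputable def gm (m : Mom) (M k : ℕ) (y : Fin k → ℤ) : ℝ :=
  (M : ℝ) ^ k * m k (fun i => (y i : ℝ) / M) (fun i => ((y i : ℝ) + 1) / M)

theorem grid_eq (m : Mom) (M : ℕ) {B : Finset ℤ} {k : ℕ} (h : B.card = k) :
    grid m M B = gm m M k (fun i => B.orderEmbOfFin h i) := by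
  subst h; rfl

theorem grid_image (m : Mom) (M : ℕ) {k : ℕ} (y : Fin k → ℤ) (hy : StrictMono y) :
    grid m M (univ.image y) = gm m M k y := by
  have hc : (univ.image y).card = k := by
    rw [Finset.card_image_of_injective _ hy.injective, Finset.card_univ, Fintype.card_fin]
  rw [grid_eq m M hc]
  congr 1
  exact (Finset.orderEmbOfFin_unique hc (fun i => Finset.mem_image_of_mem _ (Finset.mem_univ i))
    hy).symm

theorem dis {M : ℕ} (hM : 1 ≤ M) {k : ℕ} {y : Fin k → ℤ} (hy : StrictMono y) :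
    Dis (fun i => (y i : ℝ) / M) (fun i => ((y i : ℝ) + 1) / M) := by
  have hM' : (0 : ℝ) < M := by exact_mod_cast hM
  constructor
  · intro i
    exact div_lt_div_of_pos_right (by linarith) hM'
  · intro i j hij
    have h1 : y i + 1 ≤ y j := hy hij
    have h2 : (y i : ℝ) + 1 ≤ y j := by exact_mod_cast h1
    exact div_le_div_of_nonneg_right h2 hM'.le

theorem stable_grid {m : Mom} (hs : SRm m) {M : ℕ} (hM : 1 ≤ M) : Stable (grid m M) := by
  intro Y z hz
  have hM' : (0 : ℝ) < M := by exact_mod_cast hM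
  obtain ⟨y, hy⟩ : ∃ y : Fin Y.card → ℤ, y = ⇑(Y.orderEmbOfFin rfl) := ⟨_, rfl⟩
  have hym : StrictMono y := by rw [hy]; exact (Y.orderEmbOfFin rfl).strictMono
  have hyY : ∀ i, y i ∈ Y := fun i => by rw [hy]; exact Finset.orderEmbOfFin_mem Y rfl i
  have key := hs Y.card (fun i => (y i : ℝ) / M) (fun i => ((y i : ℝ) + 1) / M) (dis hM hym)
    (fun i => ((M : ℝ) : ℂ) * z (y i)) (fun i => by
      rw [Complex.im_ofReal_mul]
      exact mul_pos hM' (hz _ (hyY i)))
  intro h0
  apply key
  rw [← h0]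
  refine Finset.sum_bij (fun S _ => S.image y) ?_ ?_ ?_ ?_
  · intro S _
    rw [Finset.mem_powerset]
    intro x hx
    obtain ⟨i, _, rfl⟩ := Finset.mem_image.mp hx
    exact hyY i
  · intro S _ S' _ hSS
    exact Finset.image_injective hym.injective hSS
  · intro B hB
    refine ⟨univ.filter fun i => y i ∈ B, Finset.mem_univ _, ?_⟩
    ext x
    simp only [Finset.mem_image, Finset.mem_filter, Finset.mem_univ, true_and]
    constructor
    · rintro ⟨i, hi, rfl⟩
      exact hi
    · intro hx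
      have h1 : x ∈ Set.range y := by
        rw [hy, Finset.range_orderEmbOfFin]
        exact Finset.mem_powerset.mp hB hx
      obtain ⟨i, rfl⟩ := h1
      exact ⟨i, hx, rfl⟩
  · intro S _
    have h1 : grid m M (S.image y) = gm m M S.card (fun i => y (S.orderEmbOfFin rfl i)) := by
      have h2 : S.image y = univ.image fun i => y (S.orderEmbOfFin rfl i) := by
        ext x
        simp only [Finset.mem_image, Finset.mem_univ, true_and]
        constructor
        · rintro ⟨i, hi, rfl⟩
          have h3 : i ∈ Set.range (S.orderEmbOfFin rfl) := by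
            rw [Finset.range_orderEmbOfFin]; exact hi
          obtain ⟨j, rfl⟩ := h3
          exact ⟨j, rfl⟩
        · rintro ⟨j, rfl⟩
          exact ⟨_, Finset.orderEmbOfFin_mem S rfl j, rfl⟩
      rw [h2]
      exact grid_image m M _ (hym.comp (S.orderEmbOfFin rfl).strictMono)
    rw [h1, Finset.prod_image (fun i _ j _ hij => hym.injective hij), Finset.prod_mul_distrib,
      Finset.prod_const]
    unfold gm
    push_cast
    ring

theorem grid_nonneg {m : Mom} (hm : MF m) {M : ℕ} (hM : 1 ≤ M) (B : Finset ℤ) :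
    0 ≤ grid m M B := by
  rw [grid_eq m M rfl]
  unfold gm
  exact mul_nonneg (pow_nonneg (Nat.cast_nonneg _) _)
    (hm.nonneg _ _ _ (dis hM (B.orderEmbOfFin rfl).strictMono))

theorem grid_empty {m : Mom} (hm : MF m) (M : ℕ) : grid m M ∅ = 1 := by
  rw [grid_eq m M (k := 0) rfl]
  unfold gm
  rw [hm.zero, pow_zero, one_mul]

theorem grid_single {m : Mom} (hm : MF m) {M : ℕ} (hM : 1 ≤ M) (i : ℤ) :
    grid m M {i} = 1 := by
  have hM' : (0 : ℝ) < M := by exact_mod_cast hM
  have h1 : ({i} : Finset ℤ) = univ.image (fun _ : Fin 1 => i) := by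
    ext u
    simp [eq_comm]
  have hmo : StrictMono (fun _ : Fin 1 => i) := by
    intro a b hab
    exact absurd hab (by simp [Subsingleton.elim a b])
  rw [h1, grid_image m M _ hmo]
  unfold gm
  rw [hm.one _ _ ((dis hM hmo).1 0)]
  field_simp
  ring

theorem grid_shift {m : Mom} (hm : MF m) {M : ℕ} (hM : 1 ≤ M) (B : Finset ℤ) (t : ℤ) :
    grid m M (B.image fun i => i + t) = grid m M B := by
  obtain ⟨y, hy⟩ : ∃ y : Fin B.card → ℤ, y = ⇑(B.orderEmbOfFin rfl) := ⟨_, rfl⟩
  have hym : StrictMono y := by rw [hy]; exact (B.orderEmbOfFin rfl).strictMono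
  have hB : B = univ.image y := by
    rw [hy]
    ext x
    simp only [Finset.mem_image, Finset.mem_univ, true_and]
    constructor
    · intro hx
      have h1 : x ∈ Set.range (B.orderEmbOfFin rfl) := by
        rw [Finset.range_orderEmbOfFin]
        exact hx
      exact h1
    · rintro ⟨i, rfl⟩
      exact Finset.orderEmbOfFin_mem B rfl i
  have hymt : StrictMono (fun i => y i + t) := fun i j hij => by
    have := hym hij
    show y i + t < y j + t
    omega
  have h1 : (B.image fun i => i + t) = univ.image (fun i => y i + t) := by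
    conv_lhs => rw [hB]
    rw [Finset.image_image]
    rfl
  have h2 : grid m M B = gm m M B.card y := by
    conv_lhs => rw [hB]
    exact grid_image m M y hym
  rw [h1, grid_image m M _ hymt, h2]
  unfold gm
  congr 1
  rw [← hm.stat B.card (fun i => (y i : ℝ) / M) (fun i => ((y i : ℝ) + 1) / M) ((t : ℝ) / M)
    (dis hM hym)]
  congr 1
  · funext i
    push_cast
    ring
  · funext i
    push_cast
    ring

theorem t_GR : S_GR := by
  intro m hm hs M hM
  exact ⟨stable_grid hs hM, grid_nonneg hm hM, grid_empty hm M, grid_single hm hM,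
    fun B t => grid_shift hm hM B t⟩

theorem grid_pair {m : Mom} (hm : MF m) {M : ℕ} (hM : 1 ≤ M) (i j : ℤ) (hij : i ≠ j) :
    grid m M {i, j} = 1 - Gs m M (i - j) := by
  unfold Gs
  rw [if_neg (sub_ne_zero.2 hij), sub_sub_cancel]
  rw [← grid_shift hm hM {0, i - j} j]
  congr 1
  rw [Finset.image_insert, Finset.image_singleton, zero_add, sub_add_cancel, Finset.pair_comm]

theorem Gs_even {m : Mom} (hm : MF m) {M : ℕ} (hM : 1 ≤ M) (d : ℤ) :
    Gs m M (-d) = Gs m M d := by
  unfold Gs
  by_cases hd : d = 0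
  · rw [hd, neg_zero]
  · rw [if_neg (neg_ne_zero.2 hd), if_neg hd, ← grid_shift hm hM {0, -d} d]
    congr 2
    rw [Finset.image_insert, Finset.image_singleton, zero_add, neg_add_cancel, Finset.pair_comm]

theorem Gs_form (hP : S_PSD) {m : Mom} (hm : MF m) (hs : SRm m) {M : ℕ} (hM : 1 ≤ M)
    (Y : Finset ℤ) (c : ℤ → ℝ) : 0 ≤ ∑ i ∈ Y, ∑ j ∈ Y, c i * c j * Gs m M (i - j) := by
  have h1 := hP ℤ (grid m M) (stable_grid hs hM) (grid_nonneg hm hM) (grid_empty hm M) Y c
  have h2 : ∑ i ∈ Y, grid m M {i} * c i = ∑ i ∈ Y, c i :=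
    Finset.sum_congr rfl fun i _ => by rw [grid_single hm hM, one_mul]
  rw [h2, sq, Finset.sum_mul_sum] at h1
  have h3 : ∀ i ∈ Y, ∑ j ∈ Y, c i * c j * Gs m M (i - j) =
      ∑ j ∈ Y, c i * c j - ∑ j ∈ Y.erase i, grid m M {i, j} * (c i * c j) := by
    intro i hi
    rw [← Finset.add_sum_erase Y _ hi, ← Finset.add_sum_erase Y (fun j => c i * c j) hi,
      add_sub_assoc, ← Finset.sum_sub_distrib]
    have e1 : Gs m M (i - i) = 1 := by
      unfold Gs
      rw [sub_self, if_pos rfl]
    rw [e1, mul_one]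
    congr 1
    refine Finset.sum_congr rfl fun j hj => ?_
    rw [grid_pair hm hM i j (Finset.ne_of_mem_erase hj).symm]
    ring
  rw [Finset.sum_congr rfl h3, Finset.sum_sub_distrib]
  linarith

theorem Gs_pd (hP : S_PSD) {m : Mom} (hm : MF m) (hs : SRm m) {M : ℕ} (hM : 1 ≤ M) (n : ℕ)
    (x : Fin n → ℤ) (c : Fin n → ℝ) :
    0 ≤ ∑ i, ∑ j, c i * c j * Gs m M (x i - x j) := by
  classical
  set Y : Finset ℤ := univ.image x with hY
  set C : ℤ → ℝ := fun a => ∑ i ∈ univ.filter (fun i => x i = a), c i with hC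
  have hfib : ∀ F : ℤ → ℝ, ∑ a ∈ Y, C a * F a = ∑ i, c i * F (x i) := by
    intro F
    rw [← Finset.sum_fiberwise_of_maps_to (s := univ) (t := Y) (g := x)
      (fun i _ => Finset.mem_image_of_mem x (Finset.mem_univ i))]
    refine Finset.sum_congr rfl fun a _ => ?_
    simp only [hC]
    rw [Finset.sum_mul]
    refine Finset.sum_congr rfl fun i hi => ?_
    rw [(Finset.mem_filter.1 hi).2]
  have h1 := Gs_form hP hm hs hM Y C
  have h2 : ∑ a ∈ Y, ∑ b ∈ Y, C a * C b * Gs m M (a - b) =
      ∑ i, ∑ j, c i * c j * Gs m M (x i - x j) := by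
    have e1 : ∀ a, ∑ b ∈ Y, C a * C b * Gs m M (a - b) =
        C a * ∑ j, c j * Gs m M (a - x j) := by
      intro a
      rw [← hfib (fun b => Gs m M (a - b)), Finset.mul_sum]
      refine Finset.sum_congr rfl fun b _ => ?_
      ring
    rw [Finset.sum_congr rfl fun a _ => e1 a, hfib (fun a => ∑ j, c j * Gs m M (a - x j))]
    refine Finset.sum_congr rfl fun i _ => ?_
    rw [Finset.mul_sum]
    refine Finset.sum_congr rfl fun j _ => ?_
    ring
  rw [← h2]
  exact h1

theorem t_GPD : S_PSD → S_GR → S_GPD := by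
  intro hP _ m hm hs M hM
  have hz : Gs m M 0 = 1 := by
    unfold Gs
    rw [if_pos rfl]
  refine ⟨hz, Gs_even hm hM, ?_, Gs_pd hP hm hs hM⟩
  intro d
  have h1 := Gs_pd hP hm hs hM 2 ![0, d] ![1, 1]
  have h2 := Gs_pd hP hm hs hM 2 ![0, d] ![1, -1]
  simp only [Fin.sum_univ_two, Matrix.cons_val_zero, Matrix.cons_val_one, sub_self, zero_sub,
    sub_zero, hz, Gs_even hm hM d] at h1 h2
  rw [abs_le]
  constructor <;> linarith

end Pool.Agent.Y77.SR
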